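import Pool.Agent.SGL.StmtsU

/-!
# Squad SGL, row ARH: depths for the edges of the level `h`
-/

noncomputable section

namespace Pool.Agent.SGL.H20

open Pool.Agent.SGE Pool.Agent.SGP Pool.Agent.SGY Pool.Agent.SGD Pool.Agent.SGL

theorem ih_t {n : ℕ} (t : Fin n) (k h : ℕ) (lev pos : Fin n → ℕ) :
    ih t k h lev pos t = k + 1 := by
  unfold ih
  rw [if_pos rfl]

theorem ih_le {n : ℕ} {t : Fin n} {k h : ℕ} {lev pos : Fin n → ℕ} {u v : Fin n} (hu : u ≠ t)
    (hv : v ≠ t) (huv : pos u ≤ pos v) : ih t k h lev pos u ≤ ih t k h lev pos v := by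
  classical
  unfold ih
  rw [if_neg hu, if_neg hv]
  refine Finset.card_le_card ?_
  intro w hw
  rw [Finset.mem_filter] at hw ⊢
  exact ⟨hw.1, hw.2.1, hw.2.2.1, lt_of_lt_of_le hw.2.2.2 huv⟩

theorem ih_lt {n : ℕ} {t : Fin n} {k h : ℕ} {lev pos : Fin n → ℕ} {u v : Fin n} (hu : u ≠ t)
    (hv : v ≠ t) (hl : lev u = h) (huv : pos u < pos v) :
    ih t k h lev pos u < ih t k h lev pos v := by
  classical
  unfold ih
  rw [if_neg hu, if_neg hv]
  refine Finset.card_lt_card ?_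
  rw [Finset.ssubset_iff_of_subset]
  · refine ⟨u, ?_, ?_⟩
    · rw [Finset.mem_filter]
      exact ⟨Finset.mem_univ _, hu, hl, huv⟩
    · intro hm
      rw [Finset.mem_filter] at hm
      exact lt_irrefl _ hm.2.2.2
  · intro w hw
    rw [Finset.mem_filter] at hw ⊢
    exact ⟨hw.1, hw.2.1, hw.2.2.1, lt_trans hw.2.2.2 huv⟩

theorem ih_bound {n : ℕ} {t : Fin n} {lev pos : Fin n → ℕ} {k h : ℕ}
    (hk : (Finset.univ.filter fun w : Fin n => w ≠ t ∧ lev w = h).card = k + 1) {u : Fin n}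
    (hu : u ≠ t) (hl : lev u = h) : ih t k h lev pos u < k + 1 := by
  classical
  unfold ih
  rw [if_neg hu, ← hk]
  refine Finset.card_lt_card ?_
  rw [Finset.ssubset_iff_of_subset]
  · refine ⟨u, ?_, ?_⟩
    · rw [Finset.mem_filter]
      exact ⟨Finset.mem_univ _, hu, hl⟩
    · intro hm
      rw [Finset.mem_filter] at hm
      exact lt_irrefl _ hm.2.2.2
  · intro w hw
    rw [Finset.mem_filter] at hw ⊢
    exact ⟨hw.1, hw.2.1, hw.2.2.1⟩

/-- **Row ARH.** -/
theorem arh (hdp : Dp2Stmt) : ArhStmt := by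
  intro n G t h lev pos k hG hk
  obtain ⟨D, hD⟩ := hdp k (fun i j => ∃ u v : Fin n, ih t k h lev pos u = i ∧
    ih t k h lev pos v = j ∧ G.Adj u v ∧ u ≠ t ∧ lev u = h ∧
      (v = t ∨ (lev v = h ∧ pos u < pos v))) (by
    rintro i j l m hij hjl hlm hm ⟨⟨u1, v1, a1, b1, c1, d1, e1, f1⟩,
      ⟨u2, v2, a2, b2, c2, d2, e2, f2⟩⟩
    have hv1 : v1 ≠ t := by
      intro h0
      rw [h0, ih_t] at b1
      omega
    have g1 : lev v1 = h ∧ pos u1 < pos v1 := by
      rcases f1 with h0 | h0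
      · exact absurd h0 hv1
      · exact h0
    have p1 : pos u1 < pos u2 := by
      by_contra hc
      have := ih_le (k := k) (h := h) (lev := lev) d2 d1 (not_lt.1 hc)
      omega
    have p2 : pos u2 < pos v1 := by
      by_contra hc
      have := ih_le (k := k) (h := h) (lev := lev) hv1 d2 (not_lt.1 hc)
      omega
    have p3 : v2 = t ∨ (lev v2 = h ∧ pos v1 < pos v2) := by
      by_cases hv2 : v2 = t
      · exact Or.inl hv2
      · refine Or.inr ⟨?_, ?_⟩
        · rcases f2 with h0 | h0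
          · exact absurd h0 hv2
          · exact h0.1
        · by_contra hc
          have := ih_le (k := k) (h := h) (lev := lev) hv2 hv1 (not_lt.1 hc)
          omega
    exact hG.one h (Or.inr rfl) u1 u2 v1 v2 d1 d2 hv1 e1 e2 g1.1 p3 p1 p2 ⟨c1, c2⟩)
  refine ⟨D, fun u v huv hu hl hv => ?_⟩
  have h1 : ih t k h lev pos u < ih t k h lev pos v ∧ ih t k h lev pos v ≤ k + 1 := by
    by_cases hvt : v = t
    · rw [hvt, ih_t]
      exact ⟨ih_bound hk hu hl, le_refl _⟩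
    · rcases hv with h0 | h0
      · exact absurd h0 hvt
      · exact ⟨ih_lt hu hvt hl h0.2, (ih_bound hk hvt h0.1).le⟩
  exact ⟨h1.1, h1.2, hD _ _ h1.1 h1.2 ⟨u, v, rfl, rfl, huv, hu, hl, hv⟩⟩

end Pool.Agent.SGL.H20
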