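import Pool.Agent.SGL.StmtsA

/-!
# Squad SGL, row FLP: the flip of an edge of a triangulation of the sphere
-/

noncomputable section

namespace Pool.Agent.SGL.H20

open Pool.Agent.SGE Pool.Agent.SGP Pool.Agent.SGY Pool.Agent.SGD Pool.Agent.SGL

/-- the six directed edges of the two new faces, with the third vertex -/
def nw {V : Type} (x y u v p q r : V) : Prop :=
  (p = v ∧ q = y ∧ r = u) ∨ (p = y ∧ q = u ∧ r = v) ∨ (p = u ∧ q = v ∧ r = y) ∨
  (p = u ∧ q = x ∧ r = v) ∨ (p = x ∧ q = v ∧ r = u) ∨ (p = v ∧ q = u ∧ r = x)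

/-- an old face without the edge `x y` -/
def od {V : Type} (Φ : V → V → V → Prop) (x y p q r : V) : Prop :=
  Φ p q r ∧ ¬ isE x y p q ∧ ¬ isE x y q r ∧ ¬ isE x y r p

theorem flF_iff {V : Type} (Φ : V → V → V → Prop) (x y u v p q r : V) :
    flF Φ x y u v p q r ↔ od Φ x y p q r ∨ nw x y u v p q r := by
  unfold flF addF od nw
  constructor
  · rintro ((h | h | h | h) | h | h | h)
    · exact Or.inl h
    · exact Or.inr (Or.inl h)
    · exact Or.inr (Or.inr (Or.inl h))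
    · exact Or.inr (Or.inr (Or.inr (Or.inl h)))
    · exact Or.inr (Or.inr (Or.inr (Or.inr (Or.inl h))))
    · exact Or.inr (Or.inr (Or.inr (Or.inr (Or.inr (Or.inl h)))))
    · exact Or.inr (Or.inr (Or.inr (Or.inr (Or.inr (Or.inr h)))))
  · rintro (h | h | h | h | h | h | h)
    · exact Or.inl (Or.inl h)
    · exact Or.inl (Or.inr (Or.inl h))
    · exact Or.inl (Or.inr (Or.inr (Or.inl h)))
    · exact Or.inl (Or.inr (Or.inr (Or.inr h)))
    · exact Or.inr (Or.inl h)
    · exact Or.inr (Or.inr (Or.inl h))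
    · exact Or.inr (Or.inr (Or.inr h))

theorem isE_symm {V : Type} {x y p q : V} (h : isE x y p q) : isE x y q p := by
  rcases h with ⟨h1, h2⟩ | ⟨h1, h2⟩
  · exact Or.inr ⟨h2, h1⟩
  · exact Or.inl ⟨h2, h1⟩

theorem flp (hflb : FlbStmt) (hflh : FlhStmt) : FlpStmt := by
  intro V _ E Φ x y u v h fu fv huv hE
  have exy : E x y := h.fe _ _ _ fu
  have fyux : Φ y u x := h.rot _ _ _ fu
  have fuxy : Φ u x y := h.rot _ _ _ fyux
  have fxvy : Φ x v y := h.rot _ _ _ fv
  have fvyx : Φ v y x := h.rot _ _ _ fxvy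
  have eyu : E y u := h.fe _ _ _ fyux
  have eux : E u x := h.fe _ _ _ fuxy
  have exv : E x v := h.fe _ _ _ fxvy
  have evy : E v y := h.fe _ _ _ fvyx
  have eyx : E y x := h.sym _ _ exy
  have euy : E u y := h.sym _ _ eyu
  have exu : E x u := h.sym _ _ eux
  have evx : E v x := h.sym _ _ exv
  have eyv : E y v := h.sym _ _ evy
  have ne : ∀ {p q : V}, E p q → p ≠ q := by
    intro p q e hpq
    subst hpq
    exact h.irr _ e
  have hxy : x ≠ y := ne exy
  have hyu : y ≠ u := ne eyu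
  have hux : u ≠ x := ne eux
  have hxv : x ≠ v := ne exv
  have hvy : v ≠ y := ne evy
  -- symmetric
  have hsym : ∀ p q, flE E x y u v p q → flE E x y u v q p := by
    rintro p q (⟨e, hn⟩ | e)
    · exact Or.inl ⟨h.sym _ _ e, fun k => hn (isE_symm k)⟩
    · exact Or.inr (isE_symm e)
  -- edges which remain
  have keep : ∀ p q, E p q → ¬ isE x y p q → flE E x y u v p q := fun p q e k => Or.inl ⟨e, k⟩
  have nxu : ¬ isE x y x u := by
    rintro (⟨-, k⟩ | ⟨k, -⟩)
    · exact hyu k.symm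
    · exact hxy k
  have nyu : ¬ isE x y y u := by
    rintro (⟨k, -⟩ | ⟨-, k⟩)
    · exact hxy k.symm
    · exact hux k
  have nxv : ¬ isE x y x v := by
    rintro (⟨-, k⟩ | ⟨k, -⟩)
    · exact hvy k
    · exact hxy k
  have nyv : ¬ isE x y y v := by
    rintro (⟨k, -⟩ | ⟨-, k⟩)
    · exact hxy k.symm
    · exact hxv k.symm
  have Exu : flE E x y u v x u := keep _ _ exu nxu
  have Eyu : flE E x y u v y u := keep _ _ eyu nyu
  have Exv : flE E x y u v x v := keep _ _ exv nxv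
  have Eyv : flE E x y u v y v := keep _ _ eyv nyv
  have Euv : flE E x y u v u v := Or.inr (Or.inl ⟨rfl, rfl⟩)
  -- an old face has no directed edge of a new face
  have odnw : ∀ p q r r', od Φ x y p q r → nw x y u v p q r' → False := by
    rintro p q r r' ⟨f, h1, h2, h3⟩ (k | k | k | k | k | k)
    · obtain ⟨k1, k2, -⟩ := k
      rw [k1, k2] at f
      have := h.fn _ _ _ _ f fvyx
      exact h2 (Or.inr ⟨k2, this⟩)
    · obtain ⟨k1, k2, -⟩ := k
      rw [k1, k2] at f
      have := h.fn _ _ _ _ f fyux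
      exact h3 (Or.inl ⟨this, k1⟩)
    · obtain ⟨k1, k2, -⟩ := k
      rw [k1, k2] at f
      exact hE (h.fe _ _ _ f)
    · obtain ⟨k1, k2, -⟩ := k
      rw [k1, k2] at f
      have := h.fn _ _ _ _ f fuxy
      exact h2 (Or.inl ⟨k2, this⟩)
    · obtain ⟨k1, k2, -⟩ := k
      rw [k1, k2] at f
      have := h.fn _ _ _ _ f fxvy
      exact h3 (Or.inr ⟨this, k1⟩)
    · obtain ⟨k1, k2, -⟩ := k
      rw [k1, k2] at f
      exact hE (h.sym _ _ (h.fe _ _ _ f))
  have nwnw : ∀ p q r r', nw x y u v p q r → nw x y u v p q r' → r = r' := by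
    intro p q r r' k l
    unfold nw at k l
    rcases k with ⟨k1, k2, k3⟩ | ⟨k1, k2, k3⟩ | ⟨k1, k2, k3⟩ | ⟨k1, k2, k3⟩ | ⟨k1, k2, k3⟩ | ⟨k1, k2, k3⟩ <;>
    rcases l with ⟨l1, l2, l3⟩ | ⟨l1, l2, l3⟩ | ⟨l1, l2, l3⟩ | ⟨l1, l2, l3⟩ | ⟨l1, l2, l3⟩ | ⟨l1, l2, l3⟩ <;>
    first
      | exact k3.trans l3.symm
      | exact absurd (k1.symm.trans l1) hvy
      | exact absurd (k1.symm.trans l1) hvy.symm
      | exact absurd (k1.symm.trans l1) huv
      | exact absurd (k1.symm.trans l1) huv.symm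
      | exact absurd (k1.symm.trans l1) hxy
      | exact absurd (k1.symm.trans l1) hxy.symm
      | exact absurd (k1.symm.trans l1) hxv
      | exact absurd (k1.symm.trans l1) hxv.symm
      | exact absurd (k1.symm.trans l1) hux
      | exact absurd (k1.symm.trans l1) hux.symm
      | exact absurd (k1.symm.trans l1) hyu
      | exact absurd (k1.symm.trans l1) hyu.symm
      | exact absurd (k2.symm.trans l2) hvy
      | exact absurd (k2.symm.trans l2) hvy.symm
      | exact absurd (k2.symm.trans l2) huv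
      | exact absurd (k2.symm.trans l2) huv.symm
      | exact absurd (k2.symm.trans l2) hxy
      | exact absurd (k2.symm.trans l2) hxy.symm
      | exact absurd (k2.symm.trans l2) hxv
      | exact absurd (k2.symm.trans l2) hxv.symm
      | exact absurd (k2.symm.trans l2) hux
      | exact absurd (k2.symm.trans l2) hux.symm
      | exact absurd (k2.symm.trans l2) hyu
      | exact absurd (k2.symm.trans l2) hyu.symm
  -- the connection
  have step : ∀ p q, E p q → Relation.ReflTransGen (flE E x y u v) p q := by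
    intro p q e
    by_cases k : isE x y p q
    · rcases k with ⟨k1, k2⟩ | ⟨k1, k2⟩
      · rw [k1, k2]
        exact (Relation.ReflTransGen.single Exu).tail (hsym _ _ Eyu)
      · rw [k1, k2]
        exact (Relation.ReflTransGen.single Eyu).tail (hsym _ _ Exu)
    · exact Relation.ReflTransGen.single (keep _ _ e k)
  have steps : ∀ p q, Relation.ReflTransGen E p q →
      Relation.ReflTransGen (flE E x y u v) p q := by
    intro p q e
    induction e with
    | refl => exact Relation.ReflTransGen.refl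
    | tail _ e ih => exact ih.trans (step _ _ e)
  have hasE : ∀ p q, flE E x y u v p q → ∃ s, E p s := by
    rintro p q (⟨e, -⟩ | ⟨k, -⟩ | ⟨k, -⟩)
    · exact ⟨q, e⟩
    · exact ⟨x, by rw [k]; exact eux⟩
    · exact ⟨x, by rw [k]; exact evx⟩
  refine ⟨hsym, ?_, ?_, ?_, ?_, ?_, ?_, ?_⟩
  · rintro p (⟨e, -⟩ | ⟨k1, k2⟩ | ⟨k1, k2⟩)
    · exact h.irr _ e
    · exact huv (k1.symm.trans k2)
    · exact huv (k2.symm.trans k1)
  · intro p q r f
    rw [flF_iff] at f ⊢
    rcases f with ⟨f, h1, h2, h3⟩ | k | k | k | k | k | k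
    · exact Or.inl ⟨h.rot _ _ _ f, h2, h3, h1⟩
    · exact Or.inr (Or.inr (Or.inl ⟨k.2.1, k.2.2, k.1⟩))
    · exact Or.inr (Or.inr (Or.inr (Or.inl ⟨k.2.1, k.2.2, k.1⟩)))
    · exact Or.inr (Or.inl ⟨k.2.1, k.2.2, k.1⟩)
    · exact Or.inr (Or.inr (Or.inr (Or.inr (Or.inr (Or.inl ⟨k.2.1, k.2.2, k.1⟩)))))
    · exact Or.inr (Or.inr (Or.inr (Or.inr (Or.inr (Or.inr ⟨k.2.1, k.2.2, k.1⟩)))))
    · exact Or.inr (Or.inr (Or.inr (Or.inr (Or.inl ⟨k.2.1, k.2.2, k.1⟩))))
  · intro p q r r' f f'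
    rw [flF_iff] at f f'
    rcases f with f | f
    · rcases f' with f' | f'
      · exact h.fn _ _ _ _ f.1 f'.1
      · exact (odnw _ _ _ _ f f').elim
    · rcases f' with f' | f'
      · exact (odnw _ _ _ _ f' f).elim
      · exact nwnw _ _ _ _ f f'
  · intro p q r f
    rw [flF_iff] at f
    rcases f with ⟨f, h1, h2, h3⟩ | ⟨k1, k2, -⟩ | ⟨k1, k2, -⟩ | ⟨k1, k2, -⟩ | ⟨k1, k2, -⟩ |
      ⟨k1, k2, -⟩ | ⟨k1, k2, -⟩
    · exact keep _ _ (h.fe _ _ _ f) h1
    · rw [k1, k2]; exact hsym _ _ Eyv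
    · rw [k1, k2]; exact Eyu
    · rw [k1, k2]; exact Euv
    · rw [k1, k2]; exact hsym _ _ Exu
    · rw [k1, k2]; exact Exv
    · rw [k1, k2]; exact hsym _ _ Euv
  · exact hflb h fu fv huv hE
  · exact hflh h fu fv huv hE
  · intro u₀ v₀ x₀ y₀ e e'
    obtain ⟨s, hs⟩ := hasE _ _ e
    obtain ⟨t, ht⟩ := hasE _ _ e'
    exact steps _ _ (h.con _ _ _ _ hs ht)

end Pool.Agent.SGL.H20
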